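import Pool.Agent.Q49.SepFin

/-!
# Finite orbits on curves without separated multiples

If the field of separated multiples of an irreducible `p` is trivial, then the curve `C` of `p` in
`ℙ¹ × ℙ¹` has only finitely many finite orbits.
-/

namespace Pool.Agent.Results.MP_f5f7dd_ag.FiniteOrbits

open Polynomial Q49.SepOrb

/-- Let `K` be an algebraically closed field of characteristic zero, and let `p ∈ K[x,y]` be
irreducible with `p ∉ K[x] ∪ K[y]`. If the field of separated multiples of `p` is trivial, then
the curve `C` has only finitely many finite orbits. Here `K[X][Y]` is the ring `K[x,y]`, the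
coefficients of a polynomial in `Y` being polynomials in `X`. -/
theorem result (K : Type*) [Field K] [IsAlgClosed K] [CharZero K] (p : Polynomial (Polynomial K))
    (hirr : Irreducible p) (hx : ∀ r : Polynomial K, p ≠ C r)
    (hy : ∀ r : Polynomial K, p ≠ r.map C) (htriv : SepTrivial p) :
    {c : (orbitGraph p).ConnectedComponent | c.supp.Finite}.Finite :=
  main ⟨hirr, hx, hy⟩ htriv

end Pool.Agent.Results.MP_f5f7dd_ag.FiniteOrbits
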